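import Pool.Agent.Lib.MP_8a4e59_co.D.Stm
import Pool.Agent.Lib.MP_8a4e59_co.C.P_bet
import Pool.Agent.Lib.MP_8a4e59_co.C.P_fej

set_option autoImplicit false

/-!
Bookkeeping step of the assembly of `S_main`. (helper37)
-/

namespace Pool.Agent.APP

open Finset

/-- `{n : x₀ + W n ∈ A}` -/
noncomputable def AW (A : Finset ℤ) (x₀ : ℤ) (W : ℕ) : Finset ℤ :=
  (A.filter (fun a => (W : ℤ) ∣ a - x₀)).image (fun a => (a - x₀) / W)

lemma mem_AW {A : Finset ℤ} {x₀ : ℤ} {W : ℕ} (hW : 1 ≤ W) (n : ℤ) :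
    n ∈ AW A x₀ W ↔ x₀ + W * n ∈ A := by
  have hW0 : (W : ℤ) ≠ 0 := by omega
  unfold AW
  rw [Finset.mem_image]
  constructor
  · rintro ⟨a, ha, rfl⟩
    rw [Finset.mem_filter] at ha
    obtain ⟨k, hk⟩ := ha.2
    have h1 : (a - x₀) / (W : ℤ) = k := by rw [hk]; exact Int.mul_ediv_cancel_left k hW0
    rw [h1, ← hk]
    have : x₀ + (a - x₀) = a := by ring
    rw [this]; exact ha.1
  · intro h
    refine ⟨x₀ + W * n, Finset.mem_filter.2 ⟨h, n, by ring⟩, ?_⟩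
    have : x₀ + (W : ℤ) * n - x₀ = W * n := by ring
    rw [this]
    exact Int.mul_ediv_cancel_left n hW0

lemma cnt_AW {A : Finset ℤ} {x₀ : ℤ} {W : ℕ} (hW : 1 ≤ W) (x : ℤ) (e : ℕ) (S : Finset ℤ) :
    cnt (AW A x₀ W) x e S = cnt A (x₀ + W * x) (W * e) S := by
  unfold cnt
  congr 2
  apply Finset.filter_congr
  intro n _
  rw [mem_AW hW]
  have : x₀ + (W : ℤ) * (x + e * n) = x₀ + W * x + ((W * e : ℕ) : ℤ) * n := by push_cast; ring
  rw [this]

lemma VP_pos (Q : ℝ) (m : ℕ) : 0 ≤ VP (PQ Q m) := by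
  unfold VP
  apply Finset.prod_nonneg
  intro p hp
  unfold PQ at hp
  rw [Finset.mem_filter] at hp
  have : (2 : ℝ) ≤ p := by exact_mod_cast hp.2.1.two_le
  apply inv_nonneg.2
  rw [sub_nonneg, div_le_one (by linarith)]
  linarith

lemma VP_le_CQ (Q : ℝ) (m : ℕ) : VP (PQ Q m) ≤ CQ Q := by
  unfold VP CQ
  have hfac : ∀ p ∈ (Finset.Icc 1 ⌊Q⌋₊).filter Nat.Prime, 1 ≤ (1 - 1 / (p : ℝ))⁻¹ := by
    intro p hp
    rw [Finset.mem_filter] at hp
    have : (2 : ℝ) ≤ p := by exact_mod_cast hp.2.two_le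
    have h1 : 1 / (p : ℝ) < 1 := by rw [div_lt_one (by linarith)]; linarith
    have h2 : 0 < 1 / (p : ℝ) := by positivity
    exact one_le_inv_iff₀.2 ⟨by linarith, by linarith⟩
  have hsub : PQ Q m ⊆ (Finset.Icc 1 ⌊Q⌋₊).filter Nat.Prime := by
    intro p hp
    unfold PQ at hp
    rw [Finset.mem_filter] at hp ⊢
    exact ⟨hp.1, hp.2.1⟩
  rw [← Finset.prod_sdiff hsub]
  have h1 : 1 ≤ ∏ p ∈ (Finset.Icc 1 ⌊Q⌋₊).filter Nat.Prime \ PQ Q m, (1 - 1 / (p : ℝ))⁻¹ := by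
    calc (1 : ℝ) = ∏ p ∈ (Finset.Icc 1 ⌊Q⌋₊).filter Nat.Prime \ PQ Q m, (1 : ℝ) := by simp
      _ ≤ _ := Finset.prod_le_prod (fun _ _ => zero_le_one)
          (fun p hp => hfac p (Finset.mem_sdiff.1 hp).1)
  have h2 : 0 ≤ ∏ p ∈ PQ Q m, (1 - 1 / (p : ℝ))⁻¹ := VP_pos Q m
  nlinarith

open Classical in
/-- for `n = m x + 1`, `rough Q n` is the condition used in `nuP` -/
lemma rough_iff {Q : ℝ} {m : ℕ} {x : ℤ} :
    rough Q ((m : ℤ) * x + 1) ↔ ∀ p ∈ PQ Q m, ¬ (p : ℤ) ∣ (m : ℤ) * x + 1 := by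
  constructor
  · intro h p hp
    unfold PQ at hp
    rw [Finset.mem_filter, Finset.mem_Icc] at hp
    apply h p hp.2.1
    exact (Nat.le_floor_iff' (by have := hp.2.1.pos; omega)).1 hp.1.2
  · intro h p hp hpQ hdvd
    by_cases hpm : p ∣ m
    · have h1 : (p : ℤ) ∣ (m : ℤ) * x := Dvd.dvd.mul_right (by exact_mod_cast hpm) x
      have h2 : (p : ℤ) ∣ 1 := by
        have := dvd_sub hdvd h1
        simpa using this
      have h3 : p ∣ 1 := by exact_mod_cast h2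
      exact hp.one_lt.ne' (Nat.dvd_one.1 h3)
    · apply h p _ hdvd
      unfold PQ
      rw [Finset.mem_filter, Finset.mem_Icc]
      refine ⟨⟨hp.one_lt.le, ?_⟩, hp, hpm⟩
      exact (Nat.le_floor_iff' (by have := hp.pos; omega)).2 hpQ

lemma nuP_nonneg (Q : ℝ) (m : ℕ) (x : ℤ) : 0 ≤ nuP (PQ Q m) m x := by
  unfold nuP
  apply mul_nonneg (VP_pos Q m)
  split_ifs <;> norm_num

lemma nuP_le (Q : ℝ) (m : ℕ) (x : ℤ) : nuP (PQ Q m) m x ≤ VP (PQ Q m) := by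
  unfold nuP
  have := VP_pos Q m
  split_ifs <;> simp [this]

open Classical in
lemma nuP_le_rough (Q : ℝ) (m : ℕ) (x : ℤ) :
    nuP (PQ Q m) m x ≤ CQ Q * (if rough Q ((m : ℤ) * x + 1) then 1 else 0) := by
  unfold nuP
  by_cases h : rough Q ((m : ℤ) * x + 1)
  · rw [if_pos h, if_pos (rough_iff.1 h)]
    have := VP_le_CQ Q m
    linarith
  · rw [if_neg h, if_neg (fun h' => h (rough_iff.2 h'))]
    simp

lemma TT_le (A : Finset ℤ) (x₀ : ℤ) (B : Finset ℤ) (d : ℤ) : TT A x₀ B d ≤ B.card := by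
  unfold TT
  exact_mod_cast Finset.card_filter_le _ _

open Classical in
theorem book (A : Finset ℤ) (N W q K r : ℕ) (x₀ : ℤ) (Th : Finset ℝ) (BY : Finset ℤ) (δ Q : ℝ)
    (k : ℕ) (cc ξ : Fin k → ℝ) (hW : 1 ≤ W) (hq : 1 ≤ q) (hK : 1 ≤ K) (hr : 1 ≤ r) (hδ : 0 ≤ δ)
    (hwt : ∀ d : ℤ, wt cc ξ d =
      (((if ((W * q : ℕ) : ℤ) ∣ d then bet K r Th ((d : ℝ) / W) else 0 : ℝ)) : ℂ)) :
    ∑ x ∈ Finset.Icc (1 : ℤ) (⌊((N : ℝ) / W) / q⌋₊ : ℤ),
        wgt K r Th q 1 ⌊((N : ℝ) / W) / q⌋₊ x * TT (AW A x₀ W) 0 BY (q * x) *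
          nuP (PQ Q (W * q)) (W * q) x -
      (BY.card : ℝ) * VP (PQ Q (W * q)) * (δ * N / ((W * q : ℕ) : ℝ) + 1) ≤
    ∑ y ∈ BY.image (fun y => x₀ + (W : ℤ) * y), ∑ n ∈ (Finset.Icc (1 : ℤ) (N : ℤ)).filter
        (fun n : ℤ => δ * (N : ℝ) ≤ (n : ℝ)),
      (if y - (n - 1) ∈ A ∧ y ∈ A ∧ y + (n - 1) ∈ A then (wt cc ξ (n - 1)).re else 0) *
        (CQ Q * (if rough Q n then 1 else 0)) := by
  obtain ⟨b0, b1, -, -⟩ := p_bet p_fej K r Th hK hr
  have W0 : (0 : ℝ) < W := by exact_mod_cast hW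
  have q0 : (0 : ℝ) < q := by exact_mod_cast hq
  set n₂ := ⌊((N : ℝ) / W) / q⌋₊ with hn₂
  set m := W * q with hm
  have hm1 : 1 ≤ m := Nat.one_le_iff_ne_zero.2 (by positivity)
  have m0 : (0 : ℝ) < (m : ℝ) := by exact_mod_cast hm1
  have mZ : (0 : ℤ) < (m : ℤ) := by exact_mod_cast hm1
  have hVP := VP_pos Q m
  have hCQ : 0 ≤ CQ Q := hVP.trans (VP_le_CQ Q m)
  set f : ℤ → ℝ := fun x => wgt K r Th q 1 n₂ x * TT (AW A x₀ W) 0 BY (q * x) *
    nuP (PQ Q m) m x with hf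
  set F : ℤ → ℤ → ℝ := fun y n =>
    (if y - (n - 1) ∈ A ∧ y ∈ A ∧ y + (n - 1) ∈ A then (wt cc ξ (n - 1)).re else 0) *
        (CQ Q * (if rough Q n then 1 else 0)) with hF
  have hwre : ∀ d : ℤ, (wt cc ξ d).re =
      (if ((m : ℕ) : ℤ) ∣ d then bet K r Th ((d : ℝ) / W) else 0) := by
    intro d; rw [hwt d, Complex.ofReal_re]
  have hwre0 : ∀ d : ℤ, 0 ≤ (wt cc ξ d).re := by
    intro d
    rw [hwre]
    split_ifs
    · exact b0 _
    · exact le_refl _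
  have hF0 : ∀ y n, 0 ≤ F y n := by
    intro y n
    rw [hF]
    apply mul_nonneg
    · split_ifs
      · exact hwre0 _
      · exact le_refl _
    · apply mul_nonneg hCQ
      split_ifs <;> norm_num
  set I := Finset.Icc (1 : ℤ) (n₂ : ℤ) with hI
  set P : ℤ → Prop := fun x => δ * (N : ℝ) ≤ (((m : ℤ) * x + 1 : ℤ) : ℝ) ∧ (m : ℤ) * x + 1 ≤ N with hP
  -- bound of the terms
  have hfle : ∀ x ∈ I, f x ≤ (BY.card : ℝ) * VP (PQ Q m) := by
    intro x hx
    rw [hI, Finset.mem_Icc] at hx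
    rw [hf]
    show wgt K r Th q 1 n₂ x * TT (AW A x₀ W) 0 BY (q * x) * nuP (PQ Q m) m x ≤ _
    have h1 : wgt K r Th q 1 n₂ x = bet K r Th ((q : ℝ) * x) := by
      unfold wgt; rw [if_pos hx]
    rw [h1]
    have h2 : 0 ≤ TT (AW A x₀ W) 0 BY (q * x) := by unfold TT; positivity
    calc bet K r Th ((q : ℝ) * x) * TT (AW A x₀ W) 0 BY (q * x) * nuP (PQ Q m) m x
        ≤ 1 * (BY.card : ℝ) * VP (PQ Q m) := by
          apply mul_le_mul _ (nuP_le Q m x) (nuP_nonneg Q m x) (by positivity)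
          exact mul_le_mul (b1 _) (TT_le _ _ _ _) h2 (by norm_num)
      _ = _ := by ring
  -- number of bad terms
  have hcard : ((I.filter (fun x => ¬ P x)).card : ℝ) ≤ δ * N / m + 1 := by
    have hsub : I.filter (fun x => ¬ P x) ⊆ (Finset.Icc (1 : ℤ) ⌊δ * N / m⌋) ∪ {(n₂ : ℤ)} := by
      intro x hx
      rw [Finset.mem_filter, hI, Finset.mem_Icc] at hx
      obtain ⟨⟨hx1, hx2⟩, hx3⟩ := hx
      rw [Finset.mem_union, Finset.mem_singleton, Finset.mem_Icc]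
      by_cases hx4 : δ * (N : ℝ) ≤ (((m : ℤ) * x + 1 : ℤ) : ℝ)
      · right
        have hx5 : ¬ (m : ℤ) * x + 1 ≤ N := fun h => hx3 ⟨hx4, h⟩
        rw [not_le] at hx5
        by_contra hne
        have hx6 : x + 1 ≤ n₂ := by omega
        have hx7 : (m : ℤ) * (x + 1) ≤ N := by
          have h1 : (m : ℝ) * ((x + 1 : ℤ) : ℝ) ≤ N := by
            have h2 : ((x + 1 : ℤ) : ℝ) ≤ n₂ := by exact_mod_cast hx6
            have h3 : (n₂ : ℝ) ≤ ((N : ℝ) / W) / q := Nat.floor_le (by positivity)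
            calc (m : ℝ) * ((x + 1 : ℤ) : ℝ) ≤ m * (((N : ℝ) / W) / q) := by
                  gcongr
                  exact h2.trans h3
              _ = N := by rw [hm]; push_cast; field_simp
          exact_mod_cast h1
        have : (m : ℤ) * (x + 1) = m * x + m := by ring
        omega
      · left
        refine ⟨hx1, ?_⟩
        rw [Int.le_floor, le_div_iff₀ m0]
        rw [not_le] at hx4
        push_cast at hx4
        linarith
    have h1 := Finset.card_le_card hsub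
    have h2 := Finset.card_union_le (Finset.Icc (1 : ℤ) ⌊δ * N / m⌋) {(n₂ : ℤ)}
    rw [Finset.card_singleton, Int.card_Icc] at h2
    have h3 : 0 ≤ ⌊δ * N / m⌋ := Int.floor_nonneg.2 (by positivity)
    have h4 : ((I.filter (fun x => ¬ P x)).card : ℤ) ≤ ⌊δ * N / m⌋ + 1 := by omega
    have h5 : (⌊δ * N / m⌋ : ℝ) ≤ δ * N / m := Int.floor_le _
    have h6 : ((I.filter (fun x => ¬ P x)).card : ℝ) ≤ ((⌊δ * N / m⌋ + 1 : ℤ) : ℝ) := by
      exact_mod_cast h4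
    push_cast at h6
    linarith
  -- the good terms
  have hgood : ∀ x ∈ I.filter P,
      f x ≤ ∑ y ∈ BY.image (fun y => x₀ + (W : ℤ) * y), F y ((m : ℤ) * x + 1) := by
    intro x hx
    rw [Finset.mem_filter, hI, Finset.mem_Icc] at hx
    have h1 : wgt K r Th q 1 n₂ x = bet K r Th ((q : ℝ) * x) := by
      unfold wgt; rw [if_pos hx.1]
    rw [Finset.sum_image (by
      intro a _ b _ hab
      simp only [add_right_inj] at hab
      exact mul_left_cancel₀ (by omega) hab)]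
    have h2 : ∀ y ∈ BY, F (x₀ + (W : ℤ) * y) ((m : ℤ) * x + 1) =
        (if 0 + y - (q * x : ℤ) ∈ AW A x₀ W ∧ 0 + y ∈ AW A x₀ W ∧ 0 + y + (q * x : ℤ) ∈ AW A x₀ W
          then (1 : ℝ) else 0) * (bet K r Th ((q : ℝ) * x) *
            (CQ Q * (if rough Q ((m : ℤ) * x + 1) then 1 else 0))) := by
      intro y _
      rw [hF]
      simp only [add_sub_cancel_right]
      have e1 : x₀ + (W : ℤ) * y - m * x = x₀ + W * (0 + y - q * x) := by
        rw [hm]; push_cast; ring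
      have e2 : x₀ + (W : ℤ) * y = x₀ + W * (0 + y) := by ring
      have e3 : x₀ + (W : ℤ) * y + m * x = x₀ + W * (0 + y + q * x) := by
        rw [hm]; push_cast; ring
      have e4 : (((m : ℤ) * x : ℤ) : ℝ) / W = (q : ℝ) * x := by
        rw [hm]; push_cast; field_simp
      have heq : (x₀ + (W : ℤ) * y - m * x ∈ A ∧ x₀ + (W : ℤ) * y ∈ A ∧ x₀ + (W : ℤ) * y + m * x ∈ A) ↔
          (0 + y - (q * x : ℤ) ∈ AW A x₀ W ∧ 0 + y ∈ AW A x₀ W ∧ 0 + y + (q * x : ℤ) ∈ AW A x₀ W) := by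
        rw [mem_AW hW, mem_AW hW, mem_AW hW, ← e1, ← e2, ← e3]
      have e5 : (wt cc ξ ((m : ℤ) * x)).re = bet K r Th ((q : ℝ) * x) := by
        rw [hwre, if_pos (Dvd.intro x rfl : ((m : ℕ) : ℤ) ∣ m * x), e4]
      rw [e5]
      by_cases hc : (0 + y - (q * x : ℤ) ∈ AW A x₀ W ∧ 0 + y ∈ AW A x₀ W ∧
          0 + y + (q * x : ℤ) ∈ AW A x₀ W)
      · rw [if_pos hc, if_pos (heq.2 hc), one_mul]
      · rw [if_neg hc, if_neg (fun h => hc (heq.1 h)), zero_mul, zero_mul]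
    rw [Finset.sum_congr rfl h2, ← Finset.sum_mul]
    have h3 : ∑ y ∈ BY, (if 0 + y - (q * x : ℤ) ∈ AW A x₀ W ∧ 0 + y ∈ AW A x₀ W ∧
        0 + y + (q * x : ℤ) ∈ AW A x₀ W then (1 : ℝ) else 0) = TT (AW A x₀ W) 0 BY (q * x) := by
      unfold TT
      rw [Finset.sum_ite]
      simp
    rw [h3]
    show wgt K r Th q 1 n₂ x * TT (AW A x₀ W) 0 BY (q * x) * nuP (PQ Q m) m x ≤ _
    rw [h1]
    have h4 := nuP_le_rough Q m x
    have h5 : 0 ≤ TT (AW A x₀ W) 0 BY (q * x) := by unfold TT; positivity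
    have h6 := b0 ((q : ℝ) * x)
    calc bet K r Th ((q : ℝ) * x) * TT (AW A x₀ W) 0 BY (q * x) * nuP (PQ Q m) m x
        ≤ bet K r Th ((q : ℝ) * x) * TT (AW A x₀ W) 0 BY (q * x) *
          (CQ Q * (if rough Q ((m : ℤ) * x + 1) then 1 else 0)) := by gcongr
      _ = _ := by ring
  rw [← Finset.sum_filter_add_sum_filter_not I P]
  have hbad : ∑ x ∈ I.filter (fun x => ¬ P x), f x ≤ (BY.card : ℝ) * VP (PQ Q m) *
      (δ * N / m + 1) := by
    calc ∑ x ∈ I.filter (fun x => ¬ P x), f x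
        ≤ ∑ x ∈ I.filter (fun x => ¬ P x), (BY.card : ℝ) * VP (PQ Q m) := by
          apply Finset.sum_le_sum
          intro x hx
          exact hfle x (Finset.mem_filter.1 hx).1
      _ = ((I.filter (fun x => ¬ P x)).card : ℝ) * ((BY.card : ℝ) * VP (PQ Q m)) := by
          rw [Finset.sum_const, nsmul_eq_mul]
      _ ≤ (δ * N / m + 1) * ((BY.card : ℝ) * VP (PQ Q m)) := by
          gcongr
      _ = _ := by ring
  have hmain : ∑ x ∈ I.filter P, f x ≤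
      ∑ y ∈ BY.image (fun y => x₀ + (W : ℤ) * y), ∑ n ∈ (Finset.Icc (1 : ℤ) (N : ℤ)).filter
        (fun n : ℤ => δ * (N : ℝ) ≤ (n : ℝ)), F y n := by
    rw [Finset.sum_comm]
    calc ∑ x ∈ I.filter P, f x
        ≤ ∑ x ∈ I.filter P, ∑ y ∈ BY.image (fun y => x₀ + (W : ℤ) * y), F y ((m : ℤ) * x + 1) :=
          Finset.sum_le_sum hgood
      _ = ∑ n ∈ (I.filter P).image (fun x => (m : ℤ) * x + 1),
            ∑ y ∈ BY.image (fun y => x₀ + (W : ℤ) * y), F y n := by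
          rw [Finset.sum_image]
          intro a _ b _ hab
          simp only [add_left_inj] at hab
          exact mul_left_cancel₀ (by omega) hab
      _ ≤ _ := by
          apply Finset.sum_le_sum_of_subset_of_nonneg
          · intro n hn
            rw [Finset.mem_image] at hn
            obtain ⟨x, hx, rfl⟩ := hn
            rw [Finset.mem_filter, hI, Finset.mem_Icc] at hx
            rw [Finset.mem_filter, Finset.mem_Icc]
            refine ⟨⟨?_, hx.2.2⟩, hx.2.1⟩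
            nlinarith [hx.1.1]
          · intro n _ _
            exact Finset.sum_nonneg (fun y _ => hF0 y n)
  linarith

end Pool.Agent.APP
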