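import Pool.Agent.Lib.MP_8a4e59_co.G.Num
import Pool.Agent.Lib.MP_8a4e59_co.G.Book
import Pool.Agent.Lib.MP_8a4e59_co.A.StmA

set_option autoImplicit false

/-!
Assembly of `S_main` (MP_8a4e59_co), part 1: the core with abstract parameters.   (helper10)
-/

namespace Pool.Agent.APP

open Finset

theorem core_card (N' : ℝ) (Θ : Finset ℝ) (ρY : ℝ) (hsize : S_size) (hN : 1 ≤ N') (h0 : 0 < ρY) (h1 : ρY ≤ 1) :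
    ρY / 2 * N' * (ρY / 4) ^ Θ.card ≤ ((bohr N' Θ ρY).card : ℝ) := by
  have hs := hsize N' Θ (ρY / 2) (by linarith) (by linarith) (by linarith)
  have hsub : bohr N' Θ (ρY / 2) ⊆ bohr N' Θ ρY := by
    intro n hn
    unfold bohr at hn ⊢
    simp only [Finset.mem_filter, Finset.mem_Icc] at hn ⊢
    have hfl : ⌊ρY / 2 * N'⌋ ≤ ⌊ρY * N'⌋ := Int.floor_le_floor (by nlinarith)
    refine ⟨⟨by omega, by omega⟩, fun θ hθ => (hn.2 θ hθ).trans (by linarith)⟩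
  have hc : ((bohr N' Θ (ρY / 2)).card : ℝ) ≤ (bohr N' Θ ρY).card := by
    exact_mod_cast Finset.card_le_card hsub
  refine le_trans (le_of_eq ?_) (hs.trans hc)
  have : ρY / 2 / 2 = ρY / 4 := by ring
  rw [this]

theorem core_rt (fl α κ ρY : ℝ) (r K R : ℕ) (hfl0 : 0 < fl) (hfl : fl ≤ 1 / 10) (hα0 : 0 < α) (hα1 : α ≤ 1)
    (hκ0 : 0 < κ) (hρ0 : 0 < ρY) (hr : 1 ≤ r) (hK : 1 ≤ K) (hKge : 64 / (κ * ρY) ≤ K) :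
    fl * α ^ 3 / (1000 * (r * K * (R + 1))) ≤ κ * ρY / 4 := by
  have hr1' : (1 : ℝ) ≤ r := by exact_mod_cast hr
  have hK0 : (0 : ℝ) < K := by exact_mod_cast hK
  have hκρ : 0 < κ * ρY := mul_pos hκ0 hρ0
  have hk1 : 64 ≤ K * (κ * ρY) := by
    rw [div_le_iff₀ hκρ] at hKge
    exact hKge
  have hR0 : (0 : ℝ) ≤ R := Nat.cast_nonneg _
  have hα3 : α ^ 3 ≤ 1 := pow_le_one₀ hα0.le hα1
  have hα30 : 0 < α ^ 3 := pow_pos hα0 3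
  have e1 : fl * α ^ 3 ≤ 1 := by nlinarith
  have hden : 0 < 1000 * ((r : ℝ) * K * (R + 1)) := by positivity
  rw [div_le_iff₀ hden]
  have h1 : (1 : ℝ) ≤ r * (R + 1) := by nlinarith
  have e2 : K * (κ * ρY) ≤ r * K * (R + 1) * (κ * ρY) := by
    calc K * (κ * ρY) = 1 * (K * (κ * ρY)) := by ring
      _ ≤ (r * (R + 1)) * (K * (κ * ρY)) := mul_le_mul_of_nonneg_right h1 (by positivity)
      _ = _ := by ring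
  nlinarith

open Classical in
/-- The core with abstract parameters. -/
theorem main_core (CD ε₀ fl τs pi τ ε δ Q₀ Q ρY α N' Ya Yb Mout : ℝ) (N W E K r Ks rs Y Jq D D₀ H k k₀ : ℕ)
    (A : Finset ℤ) (Θ : Finset ℝ) (x₀ : ℤ)
    (hCD : 1 ≤ CD)
    (hD3 : ∀ (n D m Y k : ℕ) (τ Q₀ Q : ℝ) (b w : ℤ → ℝ), CD ≤ Q₀ → Q₀ ≤ Q →
      Q ^ (k + 1) ≤ D → 1 ≤ n → 1 ≤ Y → 1 ≤ m → 0 < τ → (D : ℝ) / τ ≤ n →
      (∀ x, 0 ≤ b x) → (∀ x, 0 ≤ w x) → 0 < mass b n → 0 < mass w n → Equi b n D m Y τ →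
      Equi w n D m Y τ →
      |∑ z ∈ Box7 n, W7 b w z * ∏ o : Fin 3 → Bool,
        (nuP (PQ Q m) m (LL o z) - nuP (PQ Q₀ m) m (LL o z))| ≤
      mass b n * mass w n ^ 6 * (CD / Q₀ + 256 * VP (PQ Q m) ^ 8 *
      (2 * (8 * ∑ p ∈ PQ Q m, 1 / (p : ℝ)) ^ (k + 1) / ((k + 1).factorial : ℝ) +
        7 * (1 + (6 * n / mass b n + 6 * n / mass w n)) ^ 7 *
          (2 * (8 ^ 64 / Real.sqrt Y) * ∏ p ∈ PQ Q m, (1 + 8 / (p : ℝ)) +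
            2 * (D : ℝ) * 8 ^ (k + 1) * D / (τ * n)))))
    (hG1 : S_G1) (hG2 : S_G2) (hG3 : S_G3) (hG4 : S_G4) (hC2 : S_C2) (hsize : S_size)
    (hfl0 : 0 < fl) (hfl10 : fl ≤ 1 / 10) (hε0 : 0 < ε₀) (hε1 : ε₀ ≤ 1) (hκ1 : kap Θ.card ε₀ ≤ 1)
    (hK1 : 1 ≤ K) (hKge : 64 / (kap Θ.card ε₀ * ρY) ≤ K) (hτκ : 4 * τs ≤ kap Θ.card ε₀ * ρY)
    (hrt : ∀ ρt : ℝ, ρt = fl * α ^ 3 / (1000 * (r * K * (Θ.card + 1))) → ρt ≤ kap Θ.card ε₀ * ρY / 4 →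
      ∀ e : ℕ, 1 ≤ e → 2 * e ≤ E →
      ∃ ρ₃ : ℝ, ρt / 2 ≤ ρ₃ ∧ ρ₃ ≤ ρt ∧ ∀ d₀ ∈ bohr N' Θ (kap Θ.card ε₀ * ρY / 4),
        |∑ k ∈ bohr (N' / e) (scl e Θ) ρ₃,
            TT (AW A x₀ W) 0 (bohr N' Θ ρY) (d₀ + (e : ℤ) * k) -
            α ^ 3 * ((bohr N' Θ ρY).card : ℝ) * ((bohr (N' / e) (scl e Θ) ρ₃).card : ℝ)| ≤
          fl * α ^ 3 * ((bohr N' Θ ρY).card : ℝ) *
            ((bohr (N' / e) (scl e Θ) ρ₃).card : ℝ))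
    (hYad : YR K r Θ.card = Ya) (hYbd : YR Ks rs Θ.card = Yb) (hYa1 : 1 ≤ Ya)
    (hpi : (1 / 4) ^ rs * Yb ≤ pi) (hrY : 100 * (1 / 4 : ℝ) ^ r * Ya ≤ fl * α ^ 3)
    (hKs : 1 ≤ (Ks : ℝ) * τs) (hr1 : 1 ≤ r) (hrs1 : 1 ≤ rs) (hKs1 : 1 ≤ Ks)
    (hH1 : r * (K - 1) ≤ H) (hH2 : rs * (Ks - 1) ≤ H)
    (h6a : (2 * Jq * H + 1) ^ (Θ.card + 1) < 2 ^ Jq) (h6b : (Jq : ℝ) * τ * (Y : ℝ) ^ Jq < 1)
    (h6c : 2 * τ * (D : ℝ) ^ 2 < 1) (hY1 : 1 ≤ Y) (hD0Y : D₀ ≤ Y) (hD0D : D₀ ≤ D)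
    (hE2 : 2 * (Y ^ Jq * D₀) ≤ E) (hQ01 : 1 ≤ Q₀) (hQ0Q : Q₀ ≤ Q) (hCDQ : CD ≤ Q₀)
    (hQ0D0 : Q₀ ^ (k₀ + 1) ≤ D₀) (hQD : Q ^ (k + 1) ≤ D)
    (h8 : ∀ m : ℕ, VP (PQ Q₀ m) * (2 * (∑ p ∈ PQ Q₀ m, 1 / (p : ℝ)) ^ (k₀ + 1) / ((k₀ + 1).factorial : ℝ) +
        20 * fl * ∏ p ∈ PQ Q₀ m, (1 + 1 / (p : ℝ))) ≤ 1 / 4)
    (hε : 0 < ε) (hτs : 0 < τs) (hδ : 0 < δ) (hτ0 : 0 < τ)
    (h10 : ∀ m : ℕ, 2 * ε + VP (PQ Q m) * (2 * ε₀ + 6 * pi) +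
        VP (PQ Q m) * (400 * r * K * (Θ.card + 1) * τs * Ya) ≤ α ^ 3 / 4 ∧
      VP (PQ Q m) * (δ * Ya) ≤ α ^ 3 / 4)
    (hN'1 : 1 ≤ N')
    (hq : ∀ q : ℕ, 1 ≤ q → q ≤ Y ^ Jq → 4 * (q : ℝ) * D₀ ≤ N' ∧ 2 * Ya ≤ N' / q ∧
      2 * Yb ≤ N' / q ∧ 2 ≤ N' / q ∧ (D₀ : ℝ) / τ ≤ fl * ((N' / q) / Ya) ∧
      2 * (D : ℝ) / τ ≤ N' / q ∧
      (∀ m : ℕ, CD / Q₀ + 256 * VP (PQ Q m) ^ 8 *
      (2 * (8 * ∑ p ∈ PQ Q m, 1 / (p : ℝ)) ^ (k + 1) / ((k + 1).factorial : ℝ) +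
        7 * (1 + (6 * Ya + 6 * Yb)) ^ 7 *
          (2 * (8 ^ 64 / Real.sqrt Y) * ∏ p ∈ PQ Q m, (1 + 8 / (p : ℝ)) +
            4 * (D : ℝ) * 8 ^ (k + 1) * D / (τ * (N' / q)))) ≤ ε ^ 8) ∧
      Mout ≤ α ^ 3 / 4 * (ρY / 2 * N' * (ρY / 4) ^ Θ.card) * ((N' / q) / Ya))
    (hAsub : A ⊆ Finset.Icc 1 (N : ℤ)) (hN1 : 1 ≤ N) (hNW : N' = (N : ℝ) / W)
    (hW1 : 1 ≤ W) (hρ0 : 0 < ρY) (hρ1 : ρY ≤ 1) (hα0 : 0 < α) (hα1 : α ≤ 1)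
    (hReg : Reg ε₀ N' Θ ρY) :
    ∃ (k : ℕ) (cc ξ : Fin k → ℝ) (B : Finset ℤ), (∀ i, 0 ≤ cc i) ∧ ∑ i, cc i ≤ 1 ∧
    (∀ d : ℤ, (wt cc ξ d).im = 0 ∧ 0 ≤ (wt cc ξ d).re) ∧
    Mout ≤
      ∑ y ∈ B, ∑ n ∈ (Finset.Icc (1 : ℤ) (N : ℤ)).filter
        (fun n : ℤ => δ * (N : ℝ) ≤ (n : ℝ)),
      (if y - (n - 1) ∈ A ∧ y ∈ A ∧ y + (n - 1) ∈ A then (wt cc ξ (n - 1)).re else 0) *
        (CQ Q * (if rough Q n then 1 else 0)) := by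
  have hκ0 : 0 < kap Θ.card ε₀ := by unfold kap; positivity
  -- q
  obtain ⟨q, hq1, hqY, hqW, hqprop⟩ := hC2 (insert (1 / (4 * N')) Θ) H Y Jq W τ hY1 hW1
    (lt_of_le_of_lt (Nat.pow_le_pow_right (by omega) (Finset.card_insert_le _ _)) h6a) hτ0 h6b
  have hq0 : (0 : ℝ) < q := by exact_mod_cast hq1
  obtain ⟨h4qD, h2Ya, h2Yb, h2N1, hD0τ, hDτ, h9a, hMq⟩ := hq q hq1 hqY
  have hm1 : 1 ≤ W * q := Nat.mul_pos hW1 hq1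
  -- G1 for both weights
  obtain ⟨hb01, hbmass, hbEqui, _⟩ := hG1 N' τ Θ K r q H Y D (W * q) hN'1 hK1 hr1 hq1 hτ0 h6c
    hH1 (by rw [hYad]; exact h2Ya) hqprop
  obtain ⟨hw01, hwmass, hwEqui, hwtail⟩ := hG1 N' τ Θ Ks rs q H Y D (W * q) hN'1 hKs1 hrs1 hq1 hτ0 h6c
    hH2 (by rw [hYbd]; exact h2Yb) hqprop
  have hwt := hwtail τs hKs
  have hYa0 : 0 < Ya := by linarith
  have hn0 : 0 < N' / q := by linarith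
  have hbmass' : (N' / q) / Ya ≤ bm N' Θ K r q := by rw [← hYad]; exact hbmass
  have hfr0 : 0 ≤ (N' / q) / Ya := by positivity
  have hK0 : (0 : ℝ) < K := by exact_mod_cast hK1
  have hr0 : (0 : ℝ) < r := by exact_mod_cast hr1
  have hup := core_rt fl α (kap Θ.card ε₀) ρY r K Θ.card hfl0 hfl10 hα0 hα1 hκ0 hρ0 hr1 hK1 hKge
  have hρt0 : 0 < fl * α ^ 3 / (1000 * ((r : ℝ) * K * (Θ.card + 1))) := by positivity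
  -- G2
  have hmain2 := hG2 (AW A x₀ W) N' ρY (kap Θ.card ε₀ * ρY / 4) α fl τ Q₀ Θ K r q (W * q) D Y D₀ k₀ hN'1
    hρ0 (by positivity) (by nlinarith) hα0 hα1 hfl0 hfl10 hr1 hq1 (Dvd.intro_left W rfl) hm1 hτ0 h4qD
    (by
      refine le_trans (le_of_eq ?_) hKge
      rw [div_div_eq_mul_div]; norm_num) hQ01
    (by
      intro e he heD
      have hqe : 1 ≤ q * e := Nat.mul_pos hq1 he
      have hqeE : 2 * (q * e) ≤ E := by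
        refine le_trans ?_ hE2
        exact Nat.mul_le_mul_left 2 (Nat.mul_le_mul hqY heD)
      obtain ⟨ρ₃, h31, h32, h33⟩ := hrt _ rfl hup (q * e) hqe hqeE
      refine ⟨ρ₃, by linarith, ?_, h33⟩
      have hc : (0 : ℝ) < 1000 * ((r : ℝ) * K * (Θ.card + 1)) := by positivity
      calc 1000 * ((r : ℝ) * K * (Θ.card + 1)) * ρ₃
          ≤ 1000 * ((r : ℝ) * K * (Θ.card + 1)) * (fl * α ^ 3 / (1000 * ((r : ℝ) * K * (Θ.card + 1)))) :=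
            mul_le_mul_of_nonneg_left h32 hc.le
        _ = fl * α ^ 3 := mul_div_cancel₀ _ hc.ne')
    hbEqui hD0D hD0Y
    (hD0τ.trans (mul_le_mul_of_nonneg_left hbmass' hfl0.le))
    (by
      have hfl' : (⌊N' / q⌋₊ : ℝ) ≤ N' / q := Nat.floor_le hn0.le
      have h1 : (0 : ℝ) ≤ 100 * (1 / 4 : ℝ) ^ r := by positivity
      have h2 : 0 ≤ fl * α ^ 3 := by positivity
      calc 100 * (1 / 4 : ℝ) ^ r * (⌊N' / q⌋₊ : ℝ) ≤ 100 * (1 / 4 : ℝ) ^ r * (N' / q) :=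
            mul_le_mul_of_nonneg_left hfl' h1
        _ = (100 * (1 / 4 : ℝ) ^ r * Ya) * ((N' / q) / Ya) := by
            rw [mul_assoc (100 * (1 / 4 : ℝ) ^ r), mul_div_cancel₀ _ hYa0.ne']
        _ ≤ (fl * α ^ 3) * ((N' / q) / Ya) := mul_le_mul_of_nonneg_right hrY hfr0
        _ ≤ (fl * α ^ 3) * bm N' Θ K r q := mul_le_mul_of_nonneg_left hbmass' h2)
    hQ0D0 (h8 (W * q))
  -- G3
  obtain ⟨h10a, h10b⟩ := h10 (W * q)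
  have hmain3 := hG3 CD hCD hD3 (AW A x₀ W) N' ρY ε₀ ε τs pi τ α Q₀ Q
    Θ K r Ks rs q (W * q) D Y k hN'1 hρ0 hρ1 hε0 hε1 hε hτs hτκ hα0 hα1
    hK1 hr1 hKs1 hrs1 hq1 hm1 hY1 hτ0 hReg hCDQ hQ0Q hQD hDτ h2N1 (by rw [hYbd]; exact hpi) hb01 hw01
    hbmass hwmass hbEqui hwEqui hwt (by rw [hYad, hYbd]; exact h9a (W * q)) (by rw [hYad]; exact h10a)
  -- combination
  have hsum : α ^ 3 * ((bohr N' Θ ρY).card : ℝ) * bm N' Θ K r q / 2 ≤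
      ∑ x ∈ Finset.Icc (1 : ℤ) ((⌊N' / q⌋₊ : ℕ) : ℤ), bw N' Θ K r q x *
      TT (AW A x₀ W) 0 (bohr N' Θ ρY) (q * x) * nuP (PQ Q (W * q)) (W * q) x := by
    have e : ∑ x ∈ Finset.Icc (1 : ℤ) ((⌊N' / q⌋₊ : ℕ) : ℤ), bw N' Θ K r q x *
        TT (AW A x₀ W) 0 (bohr N' Θ ρY) (q * x) * nuP (PQ Q (W * q)) (W * q) x =
        ∑ x ∈ Finset.Icc (1 : ℤ) ((⌊N' / q⌋₊ : ℕ) : ℤ), bw N' Θ K r q x *
          TT (AW A x₀ W) 0 (bohr N' Θ ρY) (q * x) * nuP (PQ Q₀ (W * q)) (W * q) x +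
        ∑ x ∈ Finset.Icc (1 : ℤ) ((⌊N' / q⌋₊ : ℕ) : ℤ), bw N' Θ K r q x *
          TT (AW A x₀ W) 0 (bohr N' Θ ρY) (q * x) *
            (nuP (PQ Q (W * q)) (W * q) x - nuP (PQ Q₀ (W * q)) (W * q) x) := by
      rw [← Finset.sum_add_distrib]
      refine Finset.sum_congr rfl fun x _ => ?_
      ring
    rw [e]
    have e2 := (abs_le.1 hmain2).1
    have e3 := (abs_le.1 hmain3).1
    linarith
  have hBYcard := core_card N' Θ ρY hsize hN'1 hρ0 hρ1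
  have hα3 : 0 ≤ α ^ 3 / 4 := by positivity
  have hcard0 : (0 : ℝ) ≤ ((bohr N' Θ ρY).card : ℝ) := Nat.cast_nonneg _
  have hMlow : Mout ≤ α ^ 3 * ((bohr N' Θ ρY).card : ℝ) * bm N' Θ K r q / 4 := by
    refine hMq.trans ?_
    calc α ^ 3 / 4 * (ρY / 2 * N' * (ρY / 4) ^ Θ.card) * ((N' / q) / Ya)
        ≤ α ^ 3 / 4 * ((bohr N' Θ ρY).card : ℝ) * ((N' / q) / Ya) :=
          mul_le_mul_of_nonneg_right (mul_le_mul_of_nonneg_left hBYcard hα3) hfr0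
      _ ≤ α ^ 3 / 4 * ((bohr N' Θ ρY).card : ℝ) * bm N' Θ K r q :=
          mul_le_mul_of_nonneg_left hbmass' (mul_nonneg hα3 hcard0)
      _ = _ := by ring
  have hcut : VP (PQ Q (W * q)) * ((bohr N' Θ ρY).card : ℝ) * (δ * (N' / q)) ≤
      α ^ 3 * ((bohr N' Θ ρY).card : ℝ) * bm N' Θ K r q / 4 := by
    calc VP (PQ Q (W * q)) * ((bohr N' Θ ρY).card : ℝ) * (δ * (N' / q))
        = ((bohr N' Θ ρY).card : ℝ) * (VP (PQ Q (W * q)) * (δ * Ya)) * ((N' / q) / Ya) := by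
          have : N' / q = Ya * ((N' / q) / Ya) := (mul_div_cancel₀ _ hYa0.ne').symm
          nth_rewrite 1 [this]
          ring
      _ ≤ ((bohr N' Θ ρY).card : ℝ) * (α ^ 3 / 4) * ((N' / q) / Ya) :=
          mul_le_mul_of_nonneg_right (mul_le_mul_of_nonneg_left h10b hcard0) hfr0
      _ ≤ ((bohr N' Θ ρY).card : ℝ) * (α ^ 3 / 4) * bm N' Θ K r q :=
          mul_le_mul_of_nonneg_left hbmass' (mul_nonneg hcard0 hα3)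
      _ = _ := by ring
  have hfin : Mout + VP (PQ Q (W * q)) * ((bohr N' Θ ρY).card : ℝ) * (δ * (N' / q)) ≤
      ∑ x ∈ Finset.Icc (1 : ℤ) ((⌊N' / q⌋₊ : ℕ) : ℤ), bw N' Θ K r q x *
      TT (AW A x₀ W) 0 (bohr N' Θ ρY) (q * x) * nuP (PQ Q (W * q)) (W * q) x := by
    refine le_trans ?_ hsum
    refine le_trans (add_le_add hMlow hcut) ?_
    linarith
  rw [hNW] at hfin
  exact hG4 N W K r q A (AW A x₀ W) x₀ Θ ρY δ Q Mout hN1 hW1 hK1 hr1 hq1 hδ hAsub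
    (fun n => mem_AW hW1 n) hfin

end Pool.Agent.APP
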