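import Pool.Agent.Lib.MP_8a4e59_co.G.Core
import Pool.Agent.Lib.MP_8a4e59_co.F.F3

set_option autoImplicit false

/-!
Assembly of `S_main` (MP_8a4e59_co), part 2: choice of parameters.   (helper10)
-/

namespace Pool.Agent.APP

open Finset

theorem S_main_of (hA : S_thmA) (hst : S_stage) (hD3 : S_D3) (hG1 : S_G1) (hG2 : S_G2) (hG3 : S_G3)
    (hG4 : S_G4) (hC2 : S_C2) (hsize : S_size) (n1 : S_N1) (n2 : S_N2) (n3 : S_N3) (n4 : S_N4) (n5 : S_N5)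
    (n6 : S_N6) (n7 : S_N7) (n8 : S_N8) (n9 : S_N9) (n10 : S_N10) (n11 : S_N11) (n12 : S_N12) : S_main := by
  classical
  intro C₀ hC₀
  obtain ⟨cA, hcA, hA⟩ := hA
  obtain ⟨CD, hCD, hD3⟩ := hD3
  refine ⟨13 * (40 * cA ^ 2), fun s hs => ?_⟩
  have hev := (F3_tend.eventually (n1 C₀ cA hC₀ hcA)).and ((F3_tend.eventually (n2 cA hcA)).and
    ((F3_tend.eventually (n3 cA hcA)).and ((F3_tend.eventually (n4 C₀ cA hC₀ hcA)).and
    ((F3_tend.eventually (n5 C₀ cA hC₀ hcA)).and ((F3_tend.eventually (n6 cA s hcA hs)).and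
    ((F3_tend.eventually (n7 C₀ cA s hC₀ hcA hs)).and ((F3_tend.eventually (n8 C₀ cA hC₀ hcA)).and
    ((F3_tend.eventually (n9 C₀ CD cA s hC₀ hCD hcA hs)).and
    ((F3_tend.eventually (n10 C₀ cA s hC₀ hcA hs)).and ((F3_tend.eventually (n11 C₀ cA hC₀ hcA)).and
    ((F3_tend.eventually (n12 C₀ cA s hC₀ hcA hs)).and
    ((F3_tend.eventually_ge_atTop 1).and (Filter.eventually_ge_atTop 3)))))))))))))
  obtain ⟨N₀, hN₀⟩ := Filter.eventually_atTop.1 hev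
  refine ⟨N₀, fun N hN A hAsub hAcard => ?_⟩
  obtain ⟨h1, h2, h3, h4, h5, h6, h7, h8, h9, h10, h11, h12, hl1, hN3⟩ := hN₀ N hN
  clear hev hN₀ n1 n2 n3 n4 n5 n6 n7 n8 n9 n10 n11 n12
  have hXc : ∀ c : ℕ, XX c N = Real.exp (Real.log (Real.log (N : ℝ)) ^ c) := fun c => rfl
  have hlogpos : 0 < Real.log (N : ℝ) := Real.log_pos (by exact_mod_cast (by omega : 1 < N))
  have hN0 : (0 : ℝ) < N := by exact_mod_cast (by omega : 0 < N)
  have hL : Real.log (N : ℝ) = Real.exp (Real.log (Real.log (N : ℝ))) := (Real.exp_log hlogpos).symm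
  have hNexp : (N : ℝ) = Real.exp (Real.exp (Real.log (Real.log (N : ℝ)))) := by
    rw [← hL, Real.exp_log hN0]
  have hQs : XX (s + 1) N = qQ s (Real.log (Real.log (N : ℝ))) := rfl
  have hδs : (XX s N)⁻¹ = qdel s (Real.log (Real.log (N : ℝ))) := by
    unfold qdel; rw [hXc, Real.exp_neg]
  have hlogC : Real.log (N : ℝ) ^ C₀ = Real.exp (C₀ * Real.log (Real.log (N : ℝ))) := by
    rw [Real.rpow_def_of_pos hlogpos]; congr 1; ring
  have hXcinv : (N : ℝ) ^ 2 / XX (13 * (40 * cA ^ 2)) N =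
      (N : ℝ) ^ 2 * Real.exp (-(Real.log (Real.log (N : ℝ)) ^ (13 * (40 * cA ^ 2)))) := by
    rw [hXc, Real.exp_neg]; rfl
  rw [hQs, hδs]
  generalize hMo : (N : ℝ) ^ 2 / XX (13 * (40 * cA ^ 2)) N = Mo
  rw [hMo] at hXcinv
  rw [hlogC] at hAcard
  generalize Real.log (Real.log (N : ℝ)) = l at h1 h2 h3 h4 h5 h6 h7 h8 h9 h10 h11 h12 hl1 hL hNexp hXcinv hAcard ⊢
  generalize hcc : 13 * (40 * cA ^ 2) = c at h11 hXcinv
  clear hcc hMo hXc hQs hδs hlogC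
  obtain ⟨ha1, hη100, hηcA, hε4, hεN, hJ, hΛ, hfl10, hfl0, hflη⟩ := h1
  obtain ⟨hv1, hv2⟩ := h2
  have hε0 : 0 < qeps l := Real.exp_pos _
  have hal0 : 0 < qal C₀ l := Real.exp_pos _
  have hη0 : 0 < qeta l := by unfold qeta; positivity
  have hτ0 : 0 < qtau s l := Real.exp_pos _
  have hε1 : qeps l ≤ 1 := by
    unfold qeps
    rw [Real.exp_le_one_iff]
    nlinarith [sq_nonneg l]
  obtain ⟨hD0v, hD0Y, hD0D, hD01, hE2, hE1, hEJ, hYJ, hQ01, hQ0Q⟩ := h7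
  have hε4' : qeps l ≤ qal C₀ l ^ 4 * qeta l / 100 := by
    refine hε4.trans ?_
    have : (qal C₀ l / 2) ^ 4 ≤ qal C₀ l ^ 4 := pow_le_pow_left₀ (by positivity) (by linarith) 4
    have h' : (qal C₀ l / 2) ^ 4 * qeta l ≤ qal C₀ l ^ 4 * qeta l := mul_le_mul_of_nonneg_right this hη0.le
    linarith
  -- the stage
  obtain ⟨W, Θ, ρY, α, x₀, hW1, hWE, hR, hρ, hρ1, hα, hα1, hReg, hdens, hinc⟩ :=
    hst cA hcA A N (qE (vv cA l)) (qal C₀ l) (qeta l) (qeps l) hE1 hal0 ha1 hη0 hη100 hε0 hε4' hAsub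
      (by
        refine le_trans (le_of_eq ?_) hAcard
        unfold qal
        rw [Real.exp_neg]; field_simp)
      (by rw [hNexp]; exact hεN) (qJ l) (qLam cA l) hJ hΛ
  have hW0 : (0 : ℝ) < W := by exact_mod_cast hW1
  have hα0 : 0 < α := by linarith
  have hRv : (Θ.card : ℝ) + 1 ≤ vv cA l := by linarith
  have hρ' : Real.exp (-(vv cA l)) ≤ ρY := by
    refine le_trans ?_ hρ
    apply Real.exp_le_exp.2
    linarith
  have hρ0 : 0 < ρY := lt_of_lt_of_le (Real.exp_pos _) hρ'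
  obtain ⟨hκ, hκ1, hK1, hKle, hτκ⟩ := h3 Θ.card ρY hRv hρ' hρ1
  have hKge : 64 / (kap Θ.card (qeps l) * ρY) ≤ qK Θ.card l ρY := by unfold qK; exact Nat.le_ceil _
  obtain ⟨hYa1, hYb1, hYa, hYb, hpi, hrY, hKs, hr1, hrs1, hKs1⟩ := h5 Θ.card (qK Θ.card l ρY) α hRv hK1 hKle hα hα1
  obtain ⟨h6a, h6b, h6c, hY1, hD1⟩ := h6 Θ.card (qK Θ.card l ρY) hRv hK1 hKle
  have h4' := h4 Θ.card ρY α hRv hρ' hρ1 hα hα1
  have hWr : (W : ℝ) ≤ Real.exp (vv cA l ^ 12) := by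
    refine le_trans ?_ hEJ
    exact_mod_cast hWE
  have hN'1 : 1 ≤ (N : ℝ) / W := by
    have := (h12 W 1 N (YR (qK Θ.card l ρY) (qr (vv cA l)) Θ.card) (YR (qKs (vv cA l)) (qrs (vv cA l)) Θ.card)
      hW1 le_rfl hNexp hWr (by
        rw [Nat.cast_one]
        apply Real.one_le_exp
        have : 0 ≤ vv cA l := by
          have : (0 : ℝ) ≤ Θ.card := Nat.cast_nonneg _
          linarith
        positivity) hYa1 hYb1 hYa hYb).2.1
    exact this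
  have hε4α : qeps l ≤ α ^ 4 * qeta l / 100 := by
    refine hε4.trans ?_
    have : (qal C₀ l / 2) ^ 4 ≤ α ^ 4 := pow_le_pow_left₀ (by positivity) hα 4
    have h' : (qal C₀ l / 2) ^ 4 * qeta l ≤ α ^ 4 * qeta l := mul_le_mul_of_nonneg_right this hη0.le
    linarith
  -- flatness
  have hflat := hA (AW A x₀ W) ((N : ℝ) / W) Θ ρY α (qeta l) (qeps l) 0 (qE (vv cA l)) hN'1 hρ0 hρ1 hα0 hα1
    hη0 hηcA hε0 hε4α hReg
    (by
      rw [cnt_AW hW1]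
      simpa using hdens)
    (by
      intro e he heE Θ' ρ' hΘ' hρ'1 hρ'2 hReg' x
      rw [cnt_AW hW1]
      have hdiv : (N : ℝ) / ((W * e : ℕ) : ℝ) = (N : ℝ) / W / e := by push_cast; rw [div_div]
      have := hinc e he heE Θ' ρ' hΘ' hρ'1 hρ'2 (by rw [hdiv]; exact hReg') (x₀ + (W : ℤ) * x)
      rw [hdiv] at this
      exact this)
  refine main_core CD (qeps l) (qfl cA l) (qts (vv cA l)) (qpi (vv cA l)) (qtau s l) (qep C₀ l) (qdel s l)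
    (qQ0 C₀ l) (qQ s l) ρY α ((N : ℝ) / W) (YR (qK Θ.card l ρY) (qr (vv cA l)) Θ.card)
    (YR (qKs (vv cA l)) (qrs (vv cA l)) Θ.card) Mo N W (qE (vv cA l)) (qK Θ.card l ρY) (qr (vv cA l))
    (qKs (vv cA l)) (qrs (vv cA l)) (qY (vv cA l)) (qJq (vv cA l)) (qD s l) (qD0 C₀ l)
    (max (qr (vv cA l) * (qK Θ.card l ρY - 1)) (qrs (vv cA l) * (qKs (vv cA l) - 1))) (qk l) (qk0 l) A Θ x₀
    hCD hD3 hG1 hG2 hG3 hG4 hC2 hsize hfl0 hfl10 hε0 hε1 hκ1 hK1 hKge hτκ ?_ rfl rfl hYa1 hpi hrY hKs hr1 hrs1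
    hKs1 (le_max_left _ _) (le_max_right _ _) h6a h6b h6c hY1 hD0Y hD0D hE2 hQ01 hQ0Q ?_ (Nat.le_ceil _)
    (Nat.le_ceil _) h8 ?_ (Real.exp_pos _) (Real.exp_pos _) hτ0 ?_ hN'1 ?_ hAsub (by omega) rfl hW1 hρ0 hρ1
    hα0 hα1 hReg
  · intro ρt hρt hup e he heE
    obtain ⟨ρ₃, h31, h32, h33⟩ := hflat e he heE ρt (by rw [hρt]; exact h4') hup
    refine ⟨ρ₃, h31, h32, ?_⟩
    rw [hflη]
    exact h33
  · exact (h9 1 1 1 _ le_rfl le_rfl (Real.one_le_exp (by positivity)) (Real.one_le_exp (by positivity)) le_rfl).2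
  · unfold qep; positivity
  · intro m
    exact h10 m Θ.card (qK Θ.card l ρY) (YR (qK Θ.card l ρY) (qr (vv cA l)) Θ.card) α hRv hK1 hKle hYa1 hYa hα hα1
  · intro q hq1 hqY
    have hqr : (q : ℝ) ≤ Real.exp (vv cA l ^ 11) := by
      refine le_trans ?_ hYJ
      exact_mod_cast hqY
    have hq0 : (0 : ℝ) < q := by exact_mod_cast hq1
    obtain ⟨hN1big, _, h4qD, h2Ya, h2Yb, h2N1, hD0τ, hDτ⟩ :=
      h12 W q N _ _ hW1 hq1 hNexp hWr hqr hYa1 hYb1 hYa hYb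
    refine ⟨h4qD, h2Ya, h2Yb, h2N1, hD0τ, hDτ, ?_, ?_⟩
    · intro m
      exact (h9 m _ _ _ hYa1 hYb1 hYa hYb hN1big).1
    · have hh := h11 Θ.card W q ρY α _ hRv hρ' hρ1 hα hα1 hW1 hq1 hWr hqr hYa1 hYa
      rw [hXcinv]
      have hY0 : 0 < YR (qK Θ.card l ρY) (qr (vv cA l)) Θ.card := by linarith
      generalize YR (qK Θ.card l ρY) (qr (vv cA l)) Θ.card = Ya at hh hY0 ⊢
      refine (mul_le_mul_of_nonneg_left hh (by positivity)).trans (le_of_eq ?_)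
      generalize (ρY / 4) ^ Θ.card = z
      field_simp

end Pool.Agent.APP
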