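import Pool.Agent.Lib.MP_8a4e59_co.G.Stm

set_option autoImplicit false

/-!
Parameters and the asymptotic inequalities of the assembly of `S_main` (MP_8a4e59_co).   (helper10)
`l = log log N → ∞`.  Every `S_Nx` is proved in `G/P/Nx.lean` as `theorem p_Nx : S_Nx`.
-/

namespace Pool.Agent.APP

open Finset

/-- `v = l^(40 cA²)`, the basic scale -/
noncomputable def vv (cA : ℕ) (l : ℝ) : ℝ := l ^ (40 * cA ^ 2)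
/-- `α₀` -/
noncomputable def qal (C₀ l : ℝ) : ℝ := Real.exp (-(C₀ * l))
/-- `η` -/
noncomputable def qeta (l : ℝ) : ℝ := 1 / l ^ 8
/-- `ε₀` -/
noncomputable def qeps (l : ℝ) : ℝ := Real.exp (-(l ^ 2))
/-- `J` -/
noncomputable def qJ (l : ℝ) : ℕ := ⌈l ^ 10⌉₊
/-- `Λ` -/
noncomputable def qLam (cA : ℕ) (l : ℝ) : ℕ := ⌈l ^ (11 * cA)⌉₊
/-- `r` -/
noncomputable def qr (v : ℝ) : ℕ := ⌈v ^ 3⌉₊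
/-- `τs` -/
noncomputable def qts (v : ℝ) : ℝ := Real.exp (-(v ^ 3))
/-- `Ks` -/
noncomputable def qKs (v : ℝ) : ℕ := ⌈Real.exp (v ^ 3)⌉₊
/-- `rs` -/
noncomputable def qrs (v : ℝ) : ℕ := ⌈v ^ 5⌉₊
/-- `pi` -/
noncomputable def qpi (v : ℝ) : ℝ := Real.exp (-(v ^ 4))
/-- `Y'` -/
noncomputable def qY (v : ℝ) : ℕ := ⌈Real.exp (v ^ 5)⌉₊
/-- the number of steps in the elimination of resonances -/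
noncomputable def qJq (v : ℝ) : ℕ := ⌈v ^ 5⌉₊
/-- `E` -/
noncomputable def qE (v : ℝ) : ℕ := ⌈Real.exp (v ^ 11)⌉₊
/-- `Q₀ = exp((25 C₀ + 1) l)` -/
noncomputable def qQ0 (C₀ l : ℝ) : ℝ := Real.exp ((25 * C₀ + 1) * l)
/-- `k₀` -/
noncomputable def qk0 (l : ℝ) : ℕ := ⌈l⌉₊
/-- `D₀` -/
noncomputable def qD0 (C₀ l : ℝ) : ℕ := ⌈qQ0 C₀ l ^ (qk0 l + 1)⌉₊
/-- `Q` -/
noncomputable def qQ (s : ℕ) (l : ℝ) : ℝ := Real.exp (l ^ (s + 1))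
/-- `k` -/
noncomputable def qk (l : ℝ) : ℕ := ⌈l ^ 2⌉₊
/-- `D` -/
noncomputable def qD (s : ℕ) (l : ℝ) : ℕ := ⌈qQ s l ^ (qk l + 1)⌉₊
/-- `τ` -/
noncomputable def qtau (s : ℕ) (l : ℝ) : ℝ := Real.exp (-(l ^ (s + 6)))
/-- `δ` -/
noncomputable def qdel (s : ℕ) (l : ℝ) : ℝ := Real.exp (-(l ^ s))
/-- `ε` -/
noncomputable def qep (C₀ l : ℝ) : ℝ := Real.exp (-(3 * C₀ * l)) / 512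
/-- `fl = cA √η` -/
noncomputable def qfl (cA : ℕ) (l : ℝ) : ℝ := cA / l ^ 4
/-- `K` -/
noncomputable def qK (R : ℕ) (l ρY : ℝ) : ℕ := ⌈64 / (kap R (qeps l) * ρY)⌉₊

/-- (N1) -/
def S_N1 : Prop := ∀ (C₀ : ℝ) (cA : ℕ), 0 < C₀ → 1 ≤ cA → ∀ᶠ l : ℝ in Filter.atTop,
  qal C₀ l ≤ 1 ∧ qeta l ≤ 1 / 100 ∧ qeta l ≤ 1 / cA ∧ qeps l ≤ (qal C₀ l / 2) ^ 4 * qeta l / 100 ∧
  100 / qeps l ≤ Real.exp (Real.exp l) ∧ 2 * Real.log (4 / qal C₀ l) / qeta l + 1 ≤ qJ l ∧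
  (Real.log (2 / qeps l) / qeta l) ^ cA + 1 ≤ qLam cA l ∧ qfl cA l ≤ 1 / 10 ∧ 0 < qfl cA l ∧
  qfl cA l = cA * Real.sqrt (qeta l)

/-- (N2)  `J ≤ 2 l^10`, `Λ ≤ 2 l^(11 cA)`, so `J Λ + 1 + Λ ≤ 8 l^(21 cA)`, `J (..)^cA + J + 1 ≤ l^(40 cA²)`. -/
def S_N2 : Prop := ∀ cA : ℕ, 1 ≤ cA → ∀ᶠ l : ℝ in Filter.atTop,
  (qJ l * qLam cA l : ℝ) + 1 ≤ vv cA l ∧
  (qJ l : ℝ) * ((qJ l * qLam cA l : ℝ) + 1 + qLam cA l) ^ cA + qJ l + 1 ≤ vv cA l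

/-- (N3)  `kap R ε = ε/(100(R+1)) ≥ exp(-l²)/(100 v) ≥ exp(-v)`; `K ≤ 65 exp(2v) ≤ exp(3v)`. -/
def S_N3 : Prop := ∀ cA : ℕ, 1 ≤ cA → ∀ᶠ l : ℝ in Filter.atTop, ∀ (R : ℕ) (ρY : ℝ),
  (R : ℝ) + 1 ≤ vv cA l → Real.exp (-(vv cA l)) ≤ ρY → ρY ≤ 1 →
  Real.exp (-(vv cA l)) ≤ kap R (qeps l) ∧ kap R (qeps l) ≤ 1 ∧ 1 ≤ qK R l ρY ∧
  (qK R l ρY : ℝ) ≤ Real.exp (3 * vv cA l) ∧ 4 * qts (vv cA l) ≤ kap R (qeps l) * ρY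

/-- (N4)  The right side is `≥ ρY · exp(-O(l²))` (`K ≤ 65/(kap ρY)`, `kap = exp(-l²)/(100(R+1))`, `r, R+1 ≤ 2 v³`, `fl = cA/l⁴`,
`α ≥ exp(-C₀ l)/2`), and the exponent on the left is `≥ l^10/2` (`log(2/ε₀)/η ≥ l^10`, power `cA ≥ 1`). -/
def S_N4 : Prop := ∀ (C₀ : ℝ) (cA : ℕ), 0 < C₀ → 1 ≤ cA → ∀ᶠ l : ℝ in Filter.atTop, ∀ (R : ℕ) (ρY α : ℝ),
  (R : ℝ) + 1 ≤ vv cA l → Real.exp (-(vv cA l)) ≤ ρY → ρY ≤ 1 → qal C₀ l / 2 ≤ α → α ≤ 1 →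
  ρY * Real.exp (-(((R : ℝ) + 1 + Real.log (2 / qeps l) / qeta l) ^ cA) / 2) ≤
    qfl cA l * α ^ 3 / (1000 * (qr (vv cA l) * qK R l ρY * (R + 1)))

/-- (N5)  `log YR = (R+1) log(400 r K (R+1)) ≤ v (3 v + log(800 v⁴)) ≤ 5 v²`, and for the second weight `≤ v (v³ + 1 + log(1600 v⁶)) ≤ 2 v⁴`;
`4^(-rs) ≤ exp(-v⁵)`, `4^(-r) ≤ exp(-v³)`. -/
def S_N5 : Prop := ∀ (C₀ : ℝ) (cA : ℕ), 0 < C₀ → 1 ≤ cA → ∀ᶠ l : ℝ in Filter.atTop, ∀ (R K : ℕ) (α : ℝ),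
  (R : ℝ) + 1 ≤ vv cA l → 1 ≤ K → (K : ℝ) ≤ Real.exp (3 * vv cA l) → qal C₀ l / 2 ≤ α → α ≤ 1 →
  1 ≤ YR K (qr (vv cA l)) R ∧ 1 ≤ YR (qKs (vv cA l)) (qrs (vv cA l)) R ∧
  YR K (qr (vv cA l)) R ≤ Real.exp (5 * vv cA l ^ 2) ∧
  YR (qKs (vv cA l)) (qrs (vv cA l)) R ≤ Real.exp (2 * vv cA l ^ 4) ∧
  (1 / 4) ^ (qrs (vv cA l)) * YR (qKs (vv cA l)) (qrs (vv cA l)) R ≤ qpi (vv cA l) ∧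
  100 * (1 / 4) ^ (qr (vv cA l)) * YR K (qr (vv cA l)) R ≤ qfl cA l * α ^ 3 ∧
  1 ≤ (qKs (vv cA l) : ℝ) * qts (vv cA l) ∧ 1 ≤ qr (vv cA l) ∧ 1 ≤ qrs (vv cA l) ∧ 1 ≤ qKs (vv cA l)

/-- (N6)  `H ≤ exp(2 v³)`, `(2 Jq H + 1)^(R+1) ≤ exp(3 v⁴) < 2^(v⁵)`; `Y^Jq ≤ exp(4 v^10)`, `l^(s+6) > 4 v^10 + ..` as `s ≥ 520 cA²`;
`D ≤ 2 exp(l^(s+1)(l²+2))`. -/
def S_N6 : Prop := ∀ (cA s : ℕ), 1 ≤ cA → 13 * (40 * cA ^ 2) ≤ s → ∀ᶠ l : ℝ in Filter.atTop, ∀ (R K : ℕ),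
  (R : ℝ) + 1 ≤ vv cA l → 1 ≤ K → (K : ℝ) ≤ Real.exp (3 * vv cA l) →
  (2 * qJq (vv cA l) * max (qr (vv cA l) * (K - 1)) (qrs (vv cA l) * (qKs (vv cA l) - 1)) + 1) ^ (R + 1) <
    2 ^ (qJq (vv cA l)) ∧
  (qJq (vv cA l) : ℝ) * qtau s l * (qY (vv cA l) : ℝ) ^ (qJq (vv cA l)) < 1 ∧
  2 * qtau s l * (qD s l : ℝ) ^ 2 < 1 ∧ 1 ≤ qY (vv cA l) ∧ 1 ≤ qD s l

/-- (N7)  `D₀ ≤ 2 exp((25C₀+1) l (l+2)) ≤ exp(v)`. -/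
def S_N7 : Prop := ∀ (C₀ : ℝ) (cA s : ℕ), 0 < C₀ → 1 ≤ cA → 13 * (40 * cA ^ 2) ≤ s →
  ∀ᶠ l : ℝ in Filter.atTop,
  (qD0 C₀ l : ℝ) ≤ Real.exp (vv cA l) ∧ qD0 C₀ l ≤ qY (vv cA l) ∧ qD0 C₀ l ≤ qD s l ∧ 1 ≤ qD0 C₀ l ∧
  2 * (qY (vv cA l) ^ (qJq (vv cA l)) * qD0 C₀ l) ≤ qE (vv cA l) ∧ 1 ≤ qE (vv cA l) ∧
  ((qE (vv cA l) : ℝ)) ^ (qJ l) ≤ Real.exp (vv cA l ^ 12) ∧
  ((qY (vv cA l) : ℝ)) ^ (qJq (vv cA l)) ≤ Real.exp (vv cA l ^ 11) ∧ 1 ≤ qQ0 C₀ l ∧ qQ0 C₀ l ≤ qQ s l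

/-- (N8)  By (D3f) [or helper8's `q_tru`: `CQ Q ≤ 1000 log Q`] `VP ≤ C₂ log Q₀`-type bounds. NOTE that here the exponent matters: use
`VP P ≤ CQ Q₀ ≤ 1000 log Q₀` and `∏ (1+1/p) ≤ VP P`; `∑ 1/p ≤ C (log log Q₀ + 1) ≤ l/6`; `x^m/m! ≤ exp(3x - m)` (from
`Real.pow_div_factorial_le_exp` at `e x`).  `VP (2 exp(l/2 - l) + 20 (cA/l⁴) · 1000 log Q₀) → 0` as `log Q₀ = (25C₀+1) l`. -/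
def S_N8 : Prop := ∀ (C₀ : ℝ) (cA : ℕ), 0 < C₀ → 1 ≤ cA → ∀ᶠ l : ℝ in Filter.atTop, ∀ m : ℕ,
  VP (PQ (qQ0 C₀ l) m) * (2 * (∑ p ∈ PQ (qQ0 C₀ l) m, 1 / (p : ℝ)) ^ (qk0 l + 1) / ((qk0 l + 1).factorial : ℝ) +
    20 * qfl cA l * ∏ p ∈ PQ (qQ0 C₀ l) m, (1 + 1 / (p : ℝ))) ≤ 1 / 4

/-- (N9)  `CD/Q₀ ≤ CD exp(-(25 C₀+1) l)`, `ε⁸ = exp(-24 C₀ l)/512⁸`; `VP ≤ 1000 l^(s+1)`, `8 ∑ 1/p ≤ l`, `(8∑)^(k+1)/(k+1)! ≤ exp(3l - l²)`;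
`(1 + 6Ya+6Yb)^7 ≤ exp(15 v⁴)`, `√Y ≥ exp(v⁵/2)`; `D²·8^(k+1)/τ ≤ exp(l^(s+7))`, `N₁ ≥ exp(exp(l)/2)`. -/
def S_N9 : Prop := ∀ (C₀ CD : ℝ) (cA s : ℕ), 0 < C₀ → 1 ≤ CD → 1 ≤ cA → 13 * (40 * cA ^ 2) ≤ s →
  ∀ᶠ l : ℝ in Filter.atTop, ∀ (m : ℕ) (Ya Yb N₁ : ℝ), 1 ≤ Ya → 1 ≤ Yb → Ya ≤ Real.exp (5 * vv cA l ^ 2) →
  Yb ≤ Real.exp (2 * vv cA l ^ 4) → Real.exp (Real.exp l / 2) ≤ N₁ →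
  CD / qQ0 C₀ l + 256 * VP (PQ (qQ s l) m) ^ 8 *
      (2 * (8 * ∑ p ∈ PQ (qQ s l) m, 1 / (p : ℝ)) ^ (qk l + 1) / ((qk l + 1).factorial : ℝ) +
        7 * (1 + (6 * Ya + 6 * Yb)) ^ 7 *
          (2 * (8 ^ 64 / Real.sqrt (qY (vv cA l))) * ∏ p ∈ PQ (qQ s l) m, (1 + 8 / (p : ℝ)) +
            4 * (qD s l : ℝ) * 8 ^ (qk l + 1) * (qD s l) / (qtau s l * N₁))) ≤ qep C₀ l ^ 8 ∧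
  CD ≤ qQ0 C₀ l

/-- (N10)  `2 ε = α₀³/256`, `α³/4 ≥ α₀³/32`; the other terms are `≤ exp(-l²/2)`. -/
def S_N10 : Prop := ∀ (C₀ : ℝ) (cA s : ℕ), 0 < C₀ → 1 ≤ cA → 13 * (40 * cA ^ 2) ≤ s →
  ∀ᶠ l : ℝ in Filter.atTop, ∀ (m R K : ℕ) (Ya α : ℝ), (R : ℝ) + 1 ≤ vv cA l → 1 ≤ K →
  (K : ℝ) ≤ Real.exp (3 * vv cA l) → 1 ≤ Ya → Ya ≤ Real.exp (5 * vv cA l ^ 2) → qal C₀ l / 2 ≤ α → α ≤ 1 →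
  2 * qep C₀ l + VP (PQ (qQ s l) m) * (2 * qeps l + 6 * qpi (vv cA l)) +
    VP (PQ (qQ s l) m) * (400 * qr (vv cA l) * K * (R + 1) * qts (vv cA l) * Ya) ≤ α ^ 3 / 4 ∧
  VP (PQ (qQ s l) m) * (qdel s l * Ya) ≤ α ^ 3 / 4

/-- (N11)  The right side is at least `exp(-3 v^12)`, and `l^(520 cA²) = v^13`. -/
def S_N11 : Prop := ∀ (C₀ : ℝ) (cA : ℕ), 0 < C₀ → 1 ≤ cA → ∀ᶠ l : ℝ in Filter.atTop,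
  ∀ (R W q : ℕ) (ρY α Ya : ℝ), (R : ℝ) + 1 ≤ vv cA l → Real.exp (-(vv cA l)) ≤ ρY → ρY ≤ 1 →
  qal C₀ l / 2 ≤ α → α ≤ 1 → 1 ≤ W → 1 ≤ q → (W : ℝ) ≤ Real.exp (vv cA l ^ 12) →
  (q : ℝ) ≤ Real.exp (vv cA l ^ 11) → 1 ≤ Ya → Ya ≤ Real.exp (5 * vv cA l ^ 2) →
  Real.exp (-(l ^ (13 * (40 * cA ^ 2)))) ≤
    α ^ 3 / 4 * (ρY / 2 * (ρY / 4) ^ R) / ((W : ℝ) * W * q * Ya)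

/-- (N12)  `N = exp(exp l)` is larger than everything. `N₁ = N/W/q ≥ exp(exp l - v^12 - v^11) ≥ exp(exp l/2)`. -/
def S_N12 : Prop := ∀ (C₀ : ℝ) (cA s : ℕ), 0 < C₀ → 1 ≤ cA → 13 * (40 * cA ^ 2) ≤ s →
  ∀ᶠ l : ℝ in Filter.atTop, ∀ (W q : ℕ) (N Ya Yb : ℝ), 1 ≤ W → 1 ≤ q → N = Real.exp (Real.exp l) →
  (W : ℝ) ≤ Real.exp (vv cA l ^ 12) → (q : ℝ) ≤ Real.exp (vv cA l ^ 11) → 1 ≤ Ya → 1 ≤ Yb →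
  Ya ≤ Real.exp (5 * vv cA l ^ 2) → Yb ≤ Real.exp (2 * vv cA l ^ 4) →
  Real.exp (Real.exp l / 2) ≤ N / W / q ∧ 1 ≤ N / W ∧ 4 * (q : ℝ) * qD0 C₀ l ≤ N / W ∧ 2 * Ya ≤ N / W / q ∧
  2 * Yb ≤ N / W / q ∧ 2 ≤ N / W / q ∧ (qD0 C₀ l : ℝ) / qtau s l ≤ qfl cA l * ((N / W / q) / Ya) ∧
  2 * (qD s l : ℝ) / qtau s l ≤ N / W / q

end Pool.Agent.APP
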