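import Pool.Agent.Lib.MP_8a4e59_co.D.Stm
import Pool.Agent.Lib.MP_8a4e59_co.C.StmC

set_option autoImplicit false

/-!
Statements of the assembly of `S_main` (MP_8a4e59_co).   (helper10)
Every `S_x` is proved in `G/P/<x>.lean` as `theorem p_x : S_x` (from the listed hypotheses).
-/

namespace Pool.Agent.APP

open Finset

/-- the Bohr weight with cutoff `[1, ⌊N/q⌋]`, frequencies `Θ ∪ {1/(4N)}` -/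
noncomputable def bw (N : ℝ) (Θ : Finset ℝ) (K r q : ℕ) : ℤ → ℝ :=
  wgt K r (insert (1 / (4 * N)) Θ) q 1 ⌊N / q⌋₊

/-- its mass -/
noncomputable def bm (N : ℝ) (Θ : Finset ℝ) (K r q : ℕ) : ℝ := mass (bw N Θ K r q) ⌊N / q⌋₊

/-- inverse relative mass bound -/
noncomputable def YR (K r R : ℕ) : ℝ := (400 * (r * K * (R + 1) : ℝ)) ^ (R + 1)

/-- (G1) Mass and equidistribution of the weights.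
Proof. Mass: `S_mass` (the weight `wgt` agrees with `bet` on `[1,n]`). `bw ≥ 0`, `≤ 1`: `S_bet`.
Equidistribution: `S_C0a` (or `S_bexp`) gives `bet K r Th (q x) = ∑ c_i ee(q (v_i·θ) x)`, `|v_i θ| ≤ r (K-1) ≤ H`; apply `S_C3` with
`ζ_i = q (v_i·θ)` and the property of `q`. Tail: if `nn (θ (q t)) > τs` for some `θ ∈ Th` then `K nn ≥ K τs ≥ 1` and `bet ≤ (1/4)^r`
(`S_bet`), there are at most `⌊N/q⌋ ≤ N/q` values of `t`. -/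
def S_G1 : Prop := ∀ (N τ : ℝ) (Θ : Finset ℝ) (K r q H Y D m : ℕ), 1 ≤ N → 1 ≤ K → 1 ≤ r → 1 ≤ q → 0 < τ →
  2 * τ * (D : ℝ) ^ 2 < 1 → r * (K - 1) ≤ H → 2 * YR K r Θ.card ≤ N / q →
  (∀ e : ℕ, 2 ≤ e → e ≤ Y → e.Coprime m → ∀ a : ℤ, Int.gcd a e = 1 → ∀ v : ℝ → ℤ,
    (∀ θ ∈ insert (1 / (4 * N)) Θ, |v θ| ≤ (H : ℤ)) →
      τ ≤ nn ((q : ℝ) * (∑ θ ∈ insert (1 / (4 * N)) Θ, (v θ : ℝ) * θ) - (a : ℝ) / e)) →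
  (∀ x, 0 ≤ bw N Θ K r q x ∧ bw N Θ K r q x ≤ 1) ∧
  (N / q) / YR K r Θ.card ≤ bm N Θ K r q ∧
  Equi (bw N Θ K r q) ⌊N / q⌋₊ D m Y τ ∧
  ∀ τs : ℝ, 1 ≤ K * τs →
    open Classical in
    ∑ t ∈ (Finset.Icc (1 : ℤ) ((⌊N / q⌋₊ : ℕ) : ℤ)).filter
      (fun t : ℤ => ¬ ∀ θ ∈ insert (1 / (4 * N)) Θ, nn (θ * ((q : ℝ) * t)) ≤ τs), bw N Θ K r q t ≤
      (1 / 4) ^ r * (N / q)

/-- (G2) Main term at level `Q₀`.  `M = α³ |BY| bm`.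
Proof. For `T ⊆ PQ Q₀ m`, `|T| ≤ k₀+1`: `e = ∏_T p ≤ Q₀^(k₀+1) ≤ D₀ ≤ Y`, `e` coprime to `m`, so by `Equi` (no `eb i > Y ≥ e` divides `e`)
`|cls b e r - bm/e| ≤ 1/τ ≤ fl bm/e`. The flatness hypothesis for `e` and `S_C5q` (helper37's form of `S_C5` with `BY = bohr N Θ ρY` and
`4 q ≤ N`) give `|cls (b t) e r - M/e| ≤ 20 fl M/e` for all `r`; `S_C6` with `fl := 20 fl`. -/
def S_G2 : Prop := ∀ (A : Finset ℤ) (N ρY ρ α fl τ Q₀ : ℝ) (Θ : Finset ℝ) (K r q m D Y D₀ k₀ : ℕ), 1 ≤ N →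
  0 < ρY → 0 < ρ → ρ ≤ 1 / 4 → 0 < α → α ≤ 1 → 0 < fl → fl ≤ 1 / 10 → 1 ≤ r → 1 ≤ q → q ∣ m → 1 ≤ m → 0 < τ →
  4 * (q : ℝ) * D₀ ≤ N → 16 / ρ ≤ K → 1 ≤ Q₀ →
  (∀ e : ℕ, 1 ≤ e → e ≤ D₀ → ∃ ρ₃ : ℝ, 0 < ρ₃ ∧ 1000 * (r * K * (Θ.card + 1)) * ρ₃ ≤ fl * α ^ 3 ∧
    ∀ d₀ ∈ bohr N Θ ρ,
    |∑ k ∈ bohr (N / (q * e : ℕ)) (scl (q * e) Θ) ρ₃, TT A 0 (bohr N Θ ρY) (d₀ + ((q * e : ℕ) : ℤ) * k) -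
      α ^ 3 * ((bohr N Θ ρY).card : ℝ) * ((bohr (N / (q * e : ℕ)) (scl (q * e) Θ) ρ₃).card : ℝ)| ≤
      fl * α ^ 3 * ((bohr N Θ ρY).card : ℝ) * ((bohr (N / (q * e : ℕ)) (scl (q * e) Θ) ρ₃).card : ℝ)) →
  Equi (bw N Θ K r q) ⌊N / q⌋₊ D m Y τ → D₀ ≤ D → D₀ ≤ Y → (D₀ : ℝ) / τ ≤ fl * bm N Θ K r q →
  100 * (1 / 4 : ℝ) ^ r * (⌊N / q⌋₊ : ℝ) ≤ fl * α ^ 3 * bm N Θ K r q →
  Q₀ ^ (k₀ + 1) ≤ D₀ →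
  VP (PQ Q₀ m) * (2 * (∑ p ∈ PQ Q₀ m, 1 / (p : ℝ)) ^ (k₀ + 1) / ((k₀ + 1).factorial : ℝ) +
    20 * fl * ∏ p ∈ PQ Q₀ m, (1 + 1 / (p : ℝ))) ≤ 1 / 4 →
  |∑ x ∈ Finset.Icc (1 : ℤ) ((⌊N / q⌋₊ : ℕ) : ℤ), bw N Θ K r q x * TT A 0 (bohr N Θ ρY) (q * x) *
      nuP (PQ Q₀ m) m x - α ^ 3 * ((bohr N Θ ρY).card : ℝ) * bm N Θ K r q| ≤
    α ^ 3 * ((bohr N Θ ρY).card : ℝ) * bm N Θ K r q / 4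

/-- (G3) From level `Q₀` to level `Q`.
Proof. Let `w' = w/mass w`, `w = bw N Θ Ks rs q`. `S_D3` for `b, w`; dividing by `(mass w)⁶` (`W7 b w' = W7 b w/(mass w)⁶`) the box sum with
`w'` is at most `bm (CD/Q₀ + ...) ≤ ε⁸ bm` (`n/mass ≤ YR`, as `⌊N/q⌋ ≤ N/q`). `|G| ≤ VP (PQ Q m)` since `0 ≤ nuP (PQ Q₀ m) ≤ VP (PQ Q₀ m) ≤ VP (PQ Q m)`.
`S_D2` with `Gam = VP (PQ Q m)` and `pi`; `⌊N/q⌋+1 ≤ 2 N/q ≤ 2 YR bm`. -/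
def S_G3 : Prop := ∀ CD : ℝ, 1 ≤ CD →
  (∀ (n D m Y k : ℕ) (τ Q₀ Q : ℝ) (b w : ℤ → ℝ), CD ≤ Q₀ → Q₀ ≤ Q →
  Q ^ (k + 1) ≤ D → 1 ≤ n → 1 ≤ Y → 1 ≤ m → 0 < τ → (D : ℝ) / τ ≤ n →
  (∀ x, 0 ≤ b x) → (∀ x, 0 ≤ w x) → 0 < mass b n → 0 < mass w n → Equi b n D m Y τ → Equi w n D m Y τ →
  |∑ z ∈ Box7 n, W7 b w z * ∏ o : Fin 3 → Bool, (nuP (PQ Q m) m (LL o z) - nuP (PQ Q₀ m) m (LL o z))| ≤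
    mass b n * mass w n ^ 6 * (CD / Q₀ + 256 * VP (PQ Q m) ^ 8 *
      (2 * (8 * ∑ p ∈ PQ Q m, 1 / (p : ℝ)) ^ (k + 1) / ((k + 1).factorial : ℝ) +
        7 * (1 + (6 * n / mass b n + 6 * n / mass w n)) ^ 7 *
          (2 * (8 ^ 64 / Real.sqrt Y) * ∏ p ∈ PQ Q m, (1 + 8 / (p : ℝ)) + 2 * (D : ℝ) * 8 ^ (k + 1) * D / (τ * n))))) →
  ∀ (A : Finset ℤ) (N ρY ε₀ ε τs pi τ α Q₀ Q : ℝ) (Θ : Finset ℝ) (K r Ks rs q m D Y k : ℕ), 1 ≤ N →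
  0 < ρY → ρY ≤ 1 → 0 < ε₀ → ε₀ ≤ 1 → 0 < ε → 0 < τs → 4 * τs ≤ kap Θ.card ε₀ * ρY → 0 < α → α ≤ 1 →
  1 ≤ K → 1 ≤ r → 1 ≤ Ks → 1 ≤ rs → 1 ≤ q → 1 ≤ m → 1 ≤ Y → 0 < τ → Reg ε₀ N Θ ρY → CD ≤ Q₀ → Q₀ ≤ Q → Q ^ (k + 1) ≤ D →
  2 * (D : ℝ) / τ ≤ N / q → 2 ≤ N / q → (1 / 4) ^ rs * YR Ks rs Θ.card ≤ pi →
  (∀ x, 0 ≤ bw N Θ K r q x ∧ bw N Θ K r q x ≤ 1) → (∀ x, 0 ≤ bw N Θ Ks rs q x ∧ bw N Θ Ks rs q x ≤ 1) →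
  (N / q) / YR K r Θ.card ≤ bm N Θ K r q → (N / q) / YR Ks rs Θ.card ≤ bm N Θ Ks rs q →
  Equi (bw N Θ K r q) ⌊N / q⌋₊ D m Y τ → Equi (bw N Θ Ks rs q) ⌊N / q⌋₊ D m Y τ →
  (open Classical in
    ∑ t ∈ (Finset.Icc (1 : ℤ) ((⌊N / q⌋₊ : ℕ) : ℤ)).filter
      (fun t : ℤ => ¬ ∀ θ ∈ insert (1 / (4 * N)) Θ, nn (θ * ((q : ℝ) * t)) ≤ τs), bw N Θ Ks rs q t ≤
      (1 / 4) ^ rs * (N / q)) →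
  CD / Q₀ + 256 * VP (PQ Q m) ^ 8 *
      (2 * (8 * ∑ p ∈ PQ Q m, 1 / (p : ℝ)) ^ (k + 1) / ((k + 1).factorial : ℝ) +
        7 * (1 + (6 * YR K r Θ.card + 6 * YR Ks rs Θ.card)) ^ 7 *
          (2 * (8 ^ 64 / Real.sqrt Y) * ∏ p ∈ PQ Q m, (1 + 8 / (p : ℝ)) +
            4 * (D : ℝ) * 8 ^ (k + 1) * D / (τ * (N / q)))) ≤ ε ^ 8 →
  2 * ε + VP (PQ Q m) * (2 * ε₀ + 6 * pi) +
    VP (PQ Q m) * (400 * r * K * (Θ.card + 1) * τs * YR K r Θ.card) ≤ α ^ 3 / 4 →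
  |∑ x ∈ Finset.Icc (1 : ℤ) ((⌊N / q⌋₊ : ℕ) : ℤ), bw N Θ K r q x * TT A 0 (bohr N Θ ρY) (q * x) *
      (nuP (PQ Q m) m x - nuP (PQ Q₀ m) m x)| ≤ α ^ 3 * ((bohr N Θ ρY).card : ℝ) * bm N Θ K r q / 4

open Classical in
/-- (G4) Conversion to the form of `S_main`.  `A' = {n : x₀ + W n ∈ A}`, `N' = N/W`, `m = W q`, `d = W q x`, `n = d + 1`.
Proof. `B = {x₀ + W y : y ∈ bohr}`, `(k, cc, ξ)` from `S_wexp` with `M = W q`, `Th = insert (1/(4N')) Θ`: `wt cc ξ d = bet K r Th (d/W)` if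
`W q ∣ d` and `0` otherwise. All terms are `≥ 0`. Keep only the terms `n = W q x + 1`, `1 ≤ x ≤ ⌊N'/q⌋`, `δ N ≤ n ≤ N` (injective in `x`):
there `wt = bw x`, the number of `y` is `TT A' 0 BY (q x)`, and `CQ Q 1[rough] ≥ nuP (PQ Q m) m x` (primes dividing `m` do not divide
`m x + 1`; `VP (PQ Q m) ≤ CQ Q`). If `W q x + 1 > N` then `TT = 0` (`y - d ≥ 1`, `y + d ≤ N` give `2 d < N`). The `x` with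
`W q x + 1 < δ N` number at most `δ N/(W q)`, and contribute at most `VP · |BY| · δ N'/q` (`bw ≤ 1`, `nuP ≤ VP`). -/
def S_G4 : Prop := ∀ (N W K r q : ℕ) (A A' : Finset ℤ) (x₀ : ℤ) (Θ : Finset ℝ) (ρY δ Q M : ℝ), 1 ≤ N → 1 ≤ W →
  1 ≤ K → 1 ≤ r → 1 ≤ q → 0 < δ → A ⊆ Finset.Icc 1 (N : ℤ) → (∀ n : ℤ, n ∈ A' ↔ x₀ + (W : ℤ) * n ∈ A) →
  M + VP (PQ Q (W * q)) * ((bohr ((N : ℝ) / W) Θ ρY).card : ℝ) * (δ * ((N : ℝ) / W / q)) ≤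
    ∑ x ∈ Finset.Icc (1 : ℤ) ((⌊(N : ℝ) / W / q⌋₊ : ℕ) : ℤ), bw ((N : ℝ) / W) Θ K r q x *
      TT A' 0 (bohr ((N : ℝ) / W) Θ ρY) (q * x) * nuP (PQ Q (W * q)) (W * q) x →
  ∃ (k : ℕ) (cc ξ : Fin k → ℝ) (B : Finset ℤ), (∀ i, 0 ≤ cc i) ∧ ∑ i, cc i ≤ 1 ∧
    (∀ d : ℤ, (wt cc ξ d).im = 0 ∧ 0 ≤ (wt cc ξ d).re) ∧
    M ≤ ∑ y ∈ B, ∑ n ∈ (Finset.Icc (1 : ℤ) (N : ℤ)).filter (fun n : ℤ => δ * (N : ℝ) ≤ (n : ℝ)),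
      (if y - (n - 1) ∈ A ∧ y ∈ A ∧ y + (n - 1) ∈ A then (wt cc ξ (n - 1)).re else 0) *
        (CQ Q * (if rough Q n then 1 else 0))

end Pool.Agent.APP
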